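import Pool.Agent.K1H40.CT.Stm

/-!
Piece NOT of project CT: `hd` of the generic tensor is not in the ideal of minors.
-/

set_option autoImplicit false

namespace Pool.Agent.K1H31.CT

open MvPolynomial Pool.Agent.W474.Cat Pool.Agent.K1H40.CT

universe u

/-! ### the centre of the exterior algebra -/

section centre

variable (k : Type u) [CommRing k]

abbrev VV : Type u := Fin 4 × Fin 8 → k

abbrev CC := Subalgebra.center k (Ex k)

variable {k}

lemma anti (x y : VV k) : (ExteriorAlgebra.ι k x : Ex k) * ExteriorAlgebra.ι k y =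
    -(ExteriorAlgebra.ι k y * ExteriorAlgebra.ι k x) :=
  eq_neg_of_add_eq_zero_left (ExteriorAlgebra.ι_add_mul_swap x y)

lemma central (x y : VV k) : (ExteriorAlgebra.ι k x : Ex k) * ExteriorAlgebra.ι k y ∈
    Subalgebra.center k (Ex k) := by
  rw [Subalgebra.mem_center_iff]
  intro b
  induction b using ExteriorAlgebra.induction with
  | algebraMap r => exact Algebra.commutes r _
  | ι z =>
    rw [← mul_assoc, anti z x, neg_mul, mul_assoc, anti z y, mul_neg, neg_neg, mul_assoc]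
  | mul a b ha hb => rw [mul_assoc, hb, ← mul_assoc, ha, mul_assoc]
  | add a b ha hb => rw [add_mul, mul_add, ha, hb]

/-- products of two generators, in the centre -/
noncomputable def cc (x y : VV k) : CC k :=
  ⟨ExteriorAlgebra.ι k x * ExteriorAlgebra.ι k y, central x y⟩

lemma cc_coe (x y : VV k) : ((cc x y : CC k) : Ex k) =
    ExteriorAlgebra.ι k x * ExteriorAlgebra.ι k y := rfl

lemma cc_anti (x y : VV k) : cc x y = -cc y x := by
  apply Subtype.ext
  rw [Subalgebra.coe_neg, cc_coe, cc_coe, anti]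

lemma swap (p q r s : VV k) : cc p q * cc r s = -(cc p r * cc q s) := by
  apply Subtype.ext
  rw [Subalgebra.coe_neg, Subalgebra.coe_mul, Subalgebra.coe_mul]
  simp only [cc_coe]
  calc (ExteriorAlgebra.ι k p : Ex k) * ExteriorAlgebra.ι k q *
        (ExteriorAlgebra.ι k r * ExteriorAlgebra.ι k s)
      = ExteriorAlgebra.ι k p * (ExteriorAlgebra.ι k q * ExteriorAlgebra.ι k r) *
        ExteriorAlgebra.ι k s := by simp only [mul_assoc]
    _ = _ := by
        rw [anti q r]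
        simp only [mul_assoc, mul_neg, neg_mul]

lemma swap3 (p q r s : VV k) : cc p q * cc r s = cc p s * cc q r := by
  apply Subtype.ext
  rw [Subalgebra.coe_mul, Subalgebra.coe_mul]
  simp only [cc_coe]
  calc (ExteriorAlgebra.ι k p : Ex k) * ExteriorAlgebra.ι k q *
        (ExteriorAlgebra.ι k r * ExteriorAlgebra.ι k s)
      = ExteriorAlgebra.ι k p * ((ExteriorAlgebra.ι k q * ExteriorAlgebra.ι k r) *
        ExteriorAlgebra.ι k s) := by simp only [mul_assoc]
    _ = ExteriorAlgebra.ι k p * (ExteriorAlgebra.ι k s *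
        (ExteriorAlgebra.ι k q * ExteriorAlgebra.ι k r)) := by
        rw [(Subalgebra.mem_center_iff.mp (central q r) (ExteriorAlgebra.ι k s))]
    _ = _ := by simp only [mul_assoc]

end centre

lemma sum_perm4 {A : Type*} [AddCommMonoid A] (F : Fin 4 → Fin 4 → Fin 4 → Fin 4 → A) :
    ∑ τ : Equiv.Perm (Fin 4), F (τ 0) (τ 1) (τ 2) (τ 3) =
      F 0 1 2 3 + F 0 1 3 2 + F 0 2 1 3 + F 0 2 3 1 +
      F 0 3 1 2 + F 0 3 2 1 + F 1 0 2 3 + F 1 0 3 2 +
      F 1 2 0 3 + F 1 2 3 0 + F 1 3 0 2 + F 1 3 2 0 +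
      F 2 0 1 3 + F 2 0 3 1 + F 2 1 0 3 + F 2 1 3 0 +
      F 2 3 0 1 + F 2 3 1 0 + F 3 0 1 2 + F 3 0 2 1 +
      F 3 1 0 2 + F 3 1 2 0 + F 3 2 0 1 + F 3 2 1 0 := by
  have h : (Finset.univ : Finset (Equiv.Perm (Fin 4))).val.map (fun τ => (τ 0, τ 1, τ 2, τ 3)) =
      ({(0, 1, 2, 3), (0, 1, 3, 2), (0, 2, 1, 3), (0, 2, 3, 1), (0, 3, 1, 2), (0, 3, 2, 1),
      (1, 0, 2, 3), (1, 0, 3, 2), (1, 2, 0, 3), (1, 2, 3, 0), (1, 3, 0, 2), (1, 3, 2, 0),
      (2, 0, 1, 3), (2, 0, 3, 1), (2, 1, 0, 3), (2, 1, 3, 0), (2, 3, 0, 1), (2, 3, 1, 0),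
      (3, 0, 1, 2), (3, 0, 2, 1), (3, 1, 0, 2), (3, 1, 2, 0), (3, 2, 0, 1), (3, 2, 1, 0)} :
        Multiset (Fin 4 × Fin 4 × Fin 4 × Fin 4)) := by decide +kernel
  have h2 : (∑ τ : Equiv.Perm (Fin 4), F (τ 0) (τ 1) (τ 2) (τ 3)) =
      (((Finset.univ : Finset (Equiv.Perm (Fin 4))).val.map (fun τ => (τ 0, τ 1, τ 2, τ 3))).map
        (fun t => F t.1 t.2.1 t.2.2.1 t.2.2.2)).sum := by
    rw [Multiset.map_map]
    rfl
  rw [h2, h]
  simp only [Multiset.insert_eq_cons, Multiset.map_cons, Multiset.sum_cons,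
    Multiset.map_singleton, Multiset.sum_singleton, add_assoc]

section fac

variable {k : Type u} [CommRing k] {n : ℕ}

/-- the `24`-term identity -/
lemma fac_aux {S V : Type*} [CommRing S] (cc : V → V → S)
    (swap : ∀ p q r s, cc p q * cc r s = -(cc p r * cc q s))
    (swap3 : ∀ p q r s, cc p q * cc r s = cc p s * cc q r) (A B C D : Fin 4 → V) :
    ((cc (A 0) (B 1) * cc (C 2) (D 3)) +
    (cc (A 0) (B 1) * cc (D 2) (C 3)) +
    (cc (A 0) (C 1) * cc (B 2) (D 3)) +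
    (cc (A 0) (C 1) * cc (D 2) (B 3)) +
    (cc (A 0) (D 1) * cc (B 2) (C 3)) +
    (cc (A 0) (D 1) * cc (C 2) (B 3)) +
    (cc (B 0) (A 1) * cc (C 2) (D 3)) +
    (cc (B 0) (A 1) * cc (D 2) (C 3)) +
    (cc (B 0) (C 1) * cc (A 2) (D 3)) +
    (cc (B 0) (C 1) * cc (D 2) (A 3)) +
    (cc (B 0) (D 1) * cc (A 2) (C 3)) +
    (cc (B 0) (D 1) * cc (C 2) (A 3)) +
    (cc (C 0) (A 1) * cc (B 2) (D 3)) +
    (cc (C 0) (A 1) * cc (D 2) (B 3)) +
    (cc (C 0) (B 1) * cc (A 2) (D 3)) +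
    (cc (C 0) (B 1) * cc (D 2) (A 3)) +
    (cc (C 0) (D 1) * cc (A 2) (B 3)) +
    (cc (C 0) (D 1) * cc (B 2) (A 3)) +
    (cc (D 0) (A 1) * cc (B 2) (C 3)) +
    (cc (D 0) (A 1) * cc (C 2) (B 3)) +
    (cc (D 0) (B 1) * cc (A 2) (C 3)) +
    (cc (D 0) (B 1) * cc (C 2) (A 3)) +
    (cc (D 0) (C 1) * cc (A 2) (B 3)) +
    (cc (D 0) (C 1) * cc (B 2) (A 3))) =
    (cc (A 0) (B 1) + cc (B 0) (A 1)) * (cc (C 2) (D 3) + cc (D 2) (C 3)) +
    -(cc (A 0) (B 2) + cc (B 0) (A 2)) * (cc (C 1) (D 3) + cc (D 1) (C 3)) +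
    (cc (A 0) (B 3) + cc (B 0) (A 3)) * (cc (C 1) (D 2) + cc (D 1) (C 2)) +
    (cc (A 1) (B 2) + cc (B 1) (A 2)) * (cc (C 0) (D 3) + cc (D 0) (C 3)) +
    -(cc (A 1) (B 3) + cc (B 1) (A 3)) * (cc (C 0) (D 2) + cc (D 0) (C 2)) +
    (cc (A 2) (B 3) + cc (B 2) (A 3)) * (cc (C 0) (D 1) + cc (D 0) (C 1)) := by
  linear_combination swap (A 0) (C 1) (B 2) (D 3) +
    swap (A 0) (D 1) (B 2) (C 3) +
    swap (B 0) (C 1) (A 2) (D 3) +
    swap (B 0) (D 1) (A 2) (C 3) +
    swap3 (A 0) (C 1) (D 2) (B 3) +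
    swap3 (A 0) (D 1) (C 2) (B 3) +
    swap3 (B 0) (C 1) (D 2) (A 3) +
    swap3 (B 0) (D 1) (C 2) (A 3) +
    swap3 (C 0) (A 1) (B 2) (D 3) +
    swap3 (D 0) (A 1) (B 2) (C 3) +
    swap3 (C 0) (B 1) (A 2) (D 3) +
    swap3 (D 0) (B 1) (A 2) (C 3) +
    swap (C 0) (A 1) (D 2) (B 3) +
    swap (D 0) (A 1) (C 2) (B 3) +
    swap (C 0) (B 1) (D 2) (A 3) +
    swap (D 0) (B 1) (C 2) (A 3)

/-- the vector of `Θ^c_i` -/
noncomputable def th (e : Fin 7 → Fin n) (c : Fin 4) (i : Fin n) : VV k :=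
  ∑ j : Fin 7, if e j = i then Pi.single (c, j.castSucc) 1 else 0

lemma Th_eq (e : Fin 7 → Fin n) (c : Fin 4) (i : Fin n) :
    Th k e c i = ExteriorAlgebra.ι k (th e c i) := by
  unfold Th th
  rw [map_sum]
  refine Finset.sum_congr rfl fun j _ => ?_
  split_ifs
  · rfl
  · rw [map_zero]

/-- the value of the generic tensor, for the indices `w` -/
noncomputable def Y (e : Fin 7 → Fin n) (w : Fin 4 → Fin n) : CC k :=
  ∑ τ : Equiv.Perm (Fin 4), cc (th e 0 (w (τ 0))) (th e 1 (w (τ 1))) *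
    cc (th e 2 (w (τ 2))) (th e 3 (w (τ 3)))

lemma Y_comp (e : Fin 7 → Fin n) (w : Fin 4 → Fin n) (σ : Equiv.Perm (Fin 4)) :
    (Y e (w ∘ σ) : CC k) = Y e w := by
  unfold Y
  exact Fintype.sum_equiv (Equiv.mulLeft σ) _ _ (fun τ => rfl)

/-- `p_{s t}(a, b)` -/
noncomputable def pp (e : Fin 7 → Fin n) (s t : Fin 4) (a b : Fin n) : CC k :=
  cc (th e s a) (th e t b) + cc (th e s b) (th e t a)

/-- left factors -/
noncomputable def PL (e : Fin 7 → Fin n) (a b : Fin n) : Fin 7 → CC k :=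
  ![pp e 0 1 a b, -pp e 0 2 a b, pp e 0 3 a b, pp e 1 2 a b, -pp e 1 3 a b, pp e 2 3 a b, 0]

/-- right factors -/
noncomputable def PR (e : Fin 7 → Fin n) (c d : Fin n) : Fin 7 → CC k :=
  ![pp e 2 3 c d, pp e 1 3 c d, pp e 1 2 c d, pp e 0 3 c d, pp e 0 2 c d, pp e 0 1 c d, 0]

lemma Y_fac (e : Fin 7 → Fin n) (a b c d : Fin n) :
    (Y e ![a, b, c, d] : CC k) = ∑ K : Fin 7, PL e a b K * PR e c d K := by
  unfold Y
  have h := sum_perm4 (fun i j l m => (cc (th e 0 ((![a, b, c, d] : Fin 4 → Fin n) i))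
    (th e 1 ((![a, b, c, d] : Fin 4 → Fin n) j)) *
    cc (th e 2 ((![a, b, c, d] : Fin 4 → Fin n) l))
    (th e 3 ((![a, b, c, d] : Fin 4 → Fin n) m)) : CC k))
  refine h.trans ?_
  rw [Fin.sum_univ_seven]
  exact (fac_aux (S := CC k) cc swap swap3 (fun s => th e s a) (fun s => th e s b) (fun s => th e s c)
    (fun s => th e s d)).trans (by
      show _ = _ + _ + _ + _ + _ + _ + (0 : CC k) * 0
      rw [mul_zero, add_zero]
      rfl)

/-! ### the evaluation -/

/-- multiplicities of a word -/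
def cnt (w : Fin 4 → Fin n) (t : Fin n) : ℕ := ∑ i, if w i = t then 1 else 0

lemma cnt_perm (w w' : Fin 4 → Fin n) (h : ∀ t, cnt w t = cnt w' t) :
    ∃ σ : Equiv.Perm (Fin 4), w' ∘ σ = w := by
  have h1 : ∀ t, Fintype.card {a // w a = t} = Fintype.card {a // w' a = t} := by
    intro t
    have := h t
    unfold cnt at this
    rw [Fintype.card_subtype, Fintype.card_subtype, Finset.card_filter, Finset.card_filter]
    exact this
  refine ⟨Equiv.ofFiberEquiv (f := w) (g := w') fun t => Fintype.equivOfCardEq (h1 t), ?_⟩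
  funext a
  exact Equiv.ofFiberEquiv_map _ a

open Classical in
/-- the value of the variable `z_γ` -/
noncomputable def val (e : Fin 7 → Fin n) (γ : Mon n (2 + 2)) : CC k :=
  if h : ∃ w : Fin 4 → Fin n, ∀ t, cnt w t = γ.1 t then Y e h.choose else 0

lemma val_add (e : Fin 7 → Fin n) (a b c d : Fin n) :
    (val e ((M2 a b).add (M2 c d)) : CC k) = Y e ![a, b, c, d] := by
  have h0 : ∀ t, cnt ![a, b, c, d] t = ((M2 a b).add (M2 c d)).1 t := by
    intro t
    unfold cnt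
    simp only [M2, Mon.add, Pi.single_apply, Fin.sum_univ_four]
    show ((if a = t then 1 else 0) + (if b = t then 1 else 0) + (if c = t then 1 else 0) +
      (if d = t then 1 else 0)) = _
    rw [add_assoc (_ + _)]
    simp only [eq_comm]
  have h : ∃ w : Fin 4 → Fin n, ∀ t, cnt w t = ((M2 a b).add (M2 c d)).1 t := ⟨_, h0⟩
  unfold val
  rw [dif_pos h]
  obtain ⟨σ, hσ⟩ := cnt_perm h.choose ![a, b, c, d] (fun t => (h.choose_spec t).trans (h0 t).symm)
  rw [← hσ, Y_comp]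

/-- every exponent vector of degree two is some `M2 a b` -/
lemma exists_M2 (γ : Mon n 2) : ∃ a b, γ = M2 a b := by
  obtain ⟨g, hg⟩ := γ
  have ha : ∃ a, g a ≠ 0 := by
    by_contra hc
    push Not at hc
    rw [Finset.sum_eq_zero (fun i _ => hc i)] at hg
    omega
  obtain ⟨a, ha⟩ := ha
  have hg1 : ∑ i, (g i - Pi.single (M := fun _ => ℕ) a 1 i) + 1 = 2 := by
    rw [← hg]
    have h1 : ∑ i, Pi.single (M := fun _ => ℕ) a 1 i = 1 := by simp
    rw [← h1, ← Finset.sum_add_distrib, h1]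
    refine Finset.sum_congr rfl fun i _ => ?_
    by_cases hi : i = a
    · subst hi
      simp only [Pi.single_eq_same]
      omega
    · rw [Pi.single_eq_of_ne hi]
      omega
  have hb : ∃ b, g b - Pi.single (M := fun _ => ℕ) a 1 b ≠ 0 := by
    by_contra hc
    push Not at hc
    rw [Finset.sum_eq_zero (fun i _ => hc i)] at hg1
    omega
  obtain ⟨b, hb⟩ := hb
  refine ⟨a, b, Subtype.ext ?_⟩
  have hle : ∀ i, Pi.single (M := fun _ => ℕ) a 1 i + Pi.single (M := fun _ => ℕ) b 1 i ≤ g i := by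
    intro i
    by_cases hib : i = b
    · subst hib
      by_cases hia : i = a
      · subst hia
        simp only [Pi.single_eq_same] at hb ⊢
        omega
      · rw [Pi.single_eq_of_ne hia] at hb ⊢
        simp only [Pi.single_eq_same]
        omega
    · rw [Pi.single_eq_of_ne hib]
      by_cases hia : i = a
      · subst hia
        simp only [Pi.single_eq_same]
        omega
      · rw [Pi.single_eq_of_ne hia]
        omega
  funext i
  have hs : ∑ i, (Pi.single (M := fun _ => ℕ) a 1 i + Pi.single (M := fun _ => ℕ) b 1 i) =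
      ∑ i, g i := by
    rw [Finset.sum_add_distrib, hg]
    simp
  exact (((Finset.sum_eq_sum_iff_of_le (fun i _ => hle i)).mp hs) i (Finset.mem_univ i)).symm

/-- the evaluation of the generic tensor -/
noncomputable def ev (k : Type u) [CommRing k] {n : ℕ} (e : Fin 7 → Fin n) :
    MvPolynomial (Mon n (2 + 2)) k →ₐ[k] CC k := aeval (val e)

lemma ev_zX (e : Fin 7 → Fin n) (a b c d : Fin n) :
    ev k e (zX k n a b c d) = Y e ![a, b, c, d] := by
  unfold ev zX
  rw [aeval_X, val_add]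

lemma ideal_le (e : Fin 7 → Fin n) :
    minorsIdeal k n 2 2 6 ≤ RingHom.ker (ev k e) := by
  unfold minorsIdeal
  rw [Ideal.span_le]
  rintro g ⟨a, b, rfl⟩
  choose a1 a2 ha using fun i => exists_M2 (a i)
  choose b1 b2 hb using fun i => exists_M2 (b i)
  show ((catalecticant k n 2 2).submatrix a b).det ∈ RingHom.ker (ev k e)
  rw [RingHom.mem_ker, AlgHom.map_det]
  have hm : (ev k e).mapMatrix ((catalecticant k n 2 2).submatrix a b) =
      (Matrix.of fun (i K : Fin 7) => (PL e (a1 i) (a2 i) K : CC k)) *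
        (Matrix.of fun (K j : Fin 7) => (PR e (b1 j) (b2 j) K : CC k)) := by
    ext1 i j
    rw [Matrix.mul_apply]
    simp only [Matrix.of_apply]
    rw [← Y_fac, ← ev_zX, AlgHom.mapMatrix_apply, Matrix.map_apply, Matrix.submatrix_apply]
    unfold catalecticant zX
    rw [Matrix.of_apply, ha i, hb j]
  rw [hm, Matrix.det_mul, Matrix.det_eq_zero_of_column_eq_zero (6 : Fin 7), zero_mul]
  intro i
  rfl

lemma th_inj {e : Fin 7 → Fin n} (he : Function.Injective e) (c : Fin 4) (j : Fin 7) :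
    (th e c (e j) : VV k) = Pi.single (c, j.castSucc) 1 := by
  unfold th
  rw [Finset.sum_eq_single j]
  · rw [if_pos rfl]
  · intro b _ hb
    rw [if_neg (fun h => hb (he h))]
  · intro h
    exact absurd (Finset.mem_univ _) h

/-- composition of a configuration with permutations of the slots -/
def act (m : Fin 7 → Fin 4 → Fin 7) (τ : Fin 7 → Equiv.Perm (Fin 4)) : Fin 7 → Fin 4 → Fin 7 :=
  fun j c => m j (τ j c)

lemma term_eq (h1 : S_TOP1.{u}) {e : Fin 7 → Fin n} (he : Function.Injective e)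
    (m : Fin 7 → Fin 4 → Fin 7) (τ : Fin 7 → Equiv.Perm (Fin 4)) :
    ((∏ j, cc (th e 0 (e (m j (τ j 0)))) (th e 1 (e (m j (τ j 1)))) *
      cc (th e 2 (e (m j (τ j 2)))) (th e 3 (e (m j (τ j 3)))) : CC k) : Ex k) =
      (eps (act m τ) : k) • W0 k := by
  rw [← h1 k (act m τ), ← List.prod_ofFn]
  have := map_list_prod (Subalgebra.center k (Ex k)).val (List.ofFn fun j =>
    (cc (th e 0 (e (m j (τ j 0)))) (th e 1 (e (m j (τ j 1)))) *
      cc (th e 2 (e (m j (τ j 2)))) (th e 3 (e (m j (τ j 3)))) : CC k))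
  refine this.trans ?_
  rw [List.map_ofFn]
  congr 1
  congr 1
  funext j
  simp only [Function.comp_apply, th_inj he]
  exact (mul_assoc (ps k 0 _ * ps k 1 _) (ps k 2 _) (ps k 3 _)).symm

lemma coe_sum' {ι : Type*} (s : Finset ι) (f : ι → CC k) :
    ((∑ i ∈ s, f i : CC k) : Ex k) = ∑ i ∈ s, (f i : Ex k) :=
  map_sum (Subalgebra.center k (Ex k)).val f s

lemma coe_int' (z : ℤ) : ((z : CC k) : Ex k) = (z : Ex k) :=
  map_intCast (Subalgebra.center k (Ex k)).val z

/-- the constant -/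
def Cst : ℤ := ∑ m : Fin 7 → Fin 4 → Fin 7, ∑ τ : Fin 7 → Equiv.Perm (Fin 4),
  eps m * eps (act m τ)

lemma ev_hd (h1 : S_TOP1.{u}) {e : Fin 7 → Fin n} (he : Function.Injective e) :
    ((ev k e (hd e (zX k n)) : CC k) : Ex k) = (Cst : k) • W0 k := by
  have hterm : ∀ m : Fin 7 → Fin 4 → Fin 7,
      ((∏ j, (Y e ![e (m j 0), e (m j 1), e (m j 2), e (m j 3)] : CC k) : CC k) : Ex k) =
      ((∑ τ : Fin 7 → Equiv.Perm (Fin 4), eps (act m τ) : ℤ) : k) • W0 k := by
    intro m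
    have hY : ∀ j, (Y e ![e (m j 0), e (m j 1), e (m j 2), e (m j 3)] : CC k) =
        ∑ τ : Equiv.Perm (Fin 4), cc (th e 0 (e (m j (τ 0)))) (th e 1 (e (m j (τ 1)))) *
          cc (th e 2 (e (m j (τ 2)))) (th e 3 (e (m j (τ 3)))) := by
      intro j
      have hw : (![e (m j 0), e (m j 1), e (m j 2), e (m j 3)] : Fin 4 → Fin n) =
          fun i => e (m j i) := by
        funext i
        fin_cases i <;> rfl
      rw [hw]
      rfl
    rw [Finset.prod_congr rfl (fun j _ => hY j), Finset.prod_univ_sum, Fintype.piFinset_univ,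
      Int.cast_sum, Finset.sum_smul]
    rw [coe_sum']
    exact Finset.sum_congr rfl fun τ _ => term_eq h1 he m τ
  unfold hd
  rw [map_sum]
  rw [coe_sum']
  unfold Cst
  rw [Int.cast_sum, Finset.sum_smul]
  refine Finset.sum_congr rfl fun m _ => ?_
  rw [map_mul, Subalgebra.coe_mul, map_intCast, map_prod]
  refine (congrArg (fun x => x * _) (coe_int' (k := k) (eps m))).trans ?_
  simp only [ev_zX]
  rw [← Finset.mul_sum, Int.cast_mul, mul_smul, ← hterm m, Int.cast_smul_eq_zsmul, zsmul_eq_mul]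

end fac

/-! ### the constant is not zero -/

lemma act_act (m : Fin 7 → Fin 4 → Fin 7) (σ τ : Fin 7 → Equiv.Perm (Fin 4)) :
    act (act m σ) τ = act m (σ * τ) := rfl

def gg (m : Fin 7 → Fin 4 → Fin 7) : ℤ := ∑ τ : Fin 7 → Equiv.Perm (Fin 4), eps (act m τ)

lemma gg_act (m : Fin 7 → Fin 4 → Fin 7) (σ : Fin 7 → Equiv.Perm (Fin 4)) :
    gg (act m σ) = gg m := by
  unfold gg
  simp only [act_act]
  exact Fintype.sum_equiv (Equiv.mulLeft σ) _ _ (fun τ => rfl)

def actE (σ : Fin 7 → Equiv.Perm (Fin 4)) :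
    (Fin 7 → Fin 4 → Fin 7) ≃ (Fin 7 → Fin 4 → Fin 7) where
  toFun m := act m σ
  invFun m := act m σ⁻¹
  left_inv m := by
    show act (act m σ) σ⁻¹ = m
    rw [act_act, mul_inv_cancel]
    rfl
  right_inv m := by
    show act (act m σ⁻¹) σ = m
    rw [act_act, inv_mul_cancel]
    rfl

lemma Cst_eq : Cst = ∑ m, eps m * gg m := by
  unfold Cst gg
  simp only [Finset.mul_sum]

lemma Cst_eq' (σ : Fin 7 → Equiv.Perm (Fin 4)) : Cst = ∑ m, eps (act m σ) * gg m := by
  rw [Cst_eq, ← (actE σ).sum_comp]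
  refine Finset.sum_congr rfl fun m _ => ?_
  show eps (act m σ) * gg (act m σ) = _
  rw [gg_act]

lemma card_mul_Cst : (Fintype.card (Fin 7 → Equiv.Perm (Fin 4)) : ℤ) * Cst =
    ∑ m, gg m * gg m := by
  have h : ∑ σ : Fin 7 → Equiv.Perm (Fin 4), Cst = ∑ m, gg m * gg m := by
    rw [Finset.sum_congr rfl (fun σ _ => Cst_eq' σ), Finset.sum_comm]
    refine Finset.sum_congr rfl fun m _ => ?_
    rw [← Finset.sum_mul]
    rfl
  rw [← h, Finset.sum_const, Finset.card_univ, nsmul_eq_mul]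

lemma sg_id : sg (fun j => j) = 1 := by
  unfold sg
  have : (Matrix.of fun j i : Fin 7 => if j = i then (1 : ℤ) else 0) = 1 := by
    ext i j
    rw [Matrix.of_apply, Matrix.one_apply]
  rw [this, Matrix.det_one]

lemma eps_m0 : eps (fun j _ => j) = 1 := by
  unfold eps
  simp only [sg_id, Finset.prod_const_one]

lemma gg_m0 : gg (fun j _ => j) = Fintype.card (Fin 7 → Equiv.Perm (Fin 4)) := by
  unfold gg
  have : ∀ τ : Fin 7 → Equiv.Perm (Fin 4), eps (act (fun j _ => j) τ) = 1 := fun τ => eps_m0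
  simp only [this]
  rw [Finset.sum_const, Finset.card_univ, nsmul_eq_mul, mul_one]

lemma sq_le_sum {X : Type*} [Fintype X] (f : X → ℤ) (x : X) : f x * f x ≤ ∑ m, f m * f m :=
  Finset.single_le_sum (f := fun m => f m * f m) (fun m _ => mul_self_nonneg (f m))
    (Finset.mem_univ x)

lemma Cst_ne : Cst ≠ 0 := by
  intro h
  have h1 := card_mul_Cst
  rw [h, mul_zero] at h1
  have h2 : gg (fun j _ => j) * gg (fun j _ => j) ≤ ∑ m, gg m * gg m := sq_le_sum gg _
  rw [← h1, gg_m0] at h2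
  have h3 : (0 : ℤ) < (Fintype.card (Fin 7 → Equiv.Perm (Fin 4)) : ℤ) :=
    Int.natCast_pos.mpr Fintype.card_pos
  nlinarith

/-- **piece NOT** -/
theorem t_NOT : S_TOP1.{u} → S_TOP3.{u} → S_NOT.{u} := by
  intro h1 h3 k _ _ n e he hmem
  have h0 : ev k e (hd e (zX k n)) = 0 := ideal_le e hmem
  have h2 := ev_hd (k := k) h1 he
  rw [h0] at h2
  have h4 : (Cst : k) • W0 k = 0 := h2.symm
  have h5 := h3 k (Cst : k) (by rw [← mul_smul_comm, h4, mul_zero])
  exact Cst_ne (by exact_mod_cast h5)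

end Pool.Agent.K1H31.CT
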